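import Pool.Agent.T9h35.Group

set_option autoImplicit false

/-!
# Edge label sums do not help monotone circuits for the clique function

Let every edge `e` of the complete graph on `n` vertices carry a label `a e` in a finite abelian
group `A`, and suppose that for every value `v` in `A` there is a monotone circuit `D v` of
polynomial size which decides the clique problem correctly on those graphs whose edges have label
sum `v`.

This is possible (if the clique function has polynomial size circuits at all) for the cyclic group
with `N + 1` elements, `N = n (n - 1) / 2`, and all labels `1`: then the sum is the number of edges,
and on graphs with a fixed number of edges monotone circuits are as powerful as general ones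
(Berkowitz).  It is trivially possible in the same way for the elementary abelian 2-group with
`2 ^ N` elements and independent labels, where the sum determines the graph, and, between these
extremes, for every `m` with `N / (m - 1)` copies of the cyclic group of order `m`.  In all these
examples the product of the exponent of `A` and of `log |A|` is at least `N`.  The theorem says that
this is necessary up to a power of the logarithm:
`exp (A) * log |A| ≥ (n - k) ^ 2 / polylog` for the problem of cliques with `k` vertices.

For instance the label sums in `A = (ZMod 2) ^ t` are `t` arbitrary parities of edge variables, and
`t` must be at least `n ^ 2 / polylog n`; in particular this holds for circuits with AND and OR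
gates in which only `t` of the variables occur negated.  The case `|A| = 1` is Razborov's theorem.

Method: the clique problem contains the disjunction of `n ^ 2 / polylog n` disjoint copies of a
block function whose monotone complexity is superpolynomial in `n` (library
`Pool.Agent.T9h16`).  By a theorem of van Emde Boas and Kruyswijk on zero sum subsequences there is
a nonempty set of copies such that, if the same input is written in all of these copies, the label
sum does not depend on the input.
-/

namespace Pool.Agent.Results.MP_0a1b52_lc.EdgeLabelSums

open Pool.Agent.T9h35
open scoped Classical

/-- There is a constant `K` such that the following holds for every finite abelian group `A`, all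
`n, k, s`, all labels `a e` in `A` of the pairs of vertices and all monotone circuits `D v`, one for
each `v` in `A`, with at most `s` gates on the edge variables of graphs with `n` vertices.  If for
every graph `G` the circuit `D v` for `v` the sum of the labels of the edges of `G` decides whether
`G` has a clique with at least `k` vertices, and if `k ≥ K (log (n + s) + 1) ^ 3`, then
`(n - k) ^ 2 ≤ K exp (A) (log |A| + 1) (log (n + s) + 1) ^ 14`. -/
theorem result :
    ∃ K : ℕ, ∀ (A : Type) [AddCommGroup A] [Fintype A] (n k s : ℕ) (a : Sym2 (Fin n) → A)
      (D : A → MonoCircuit n),
      (∀ v, (D v).size ≤ s) →
      (∀ G : SimpleGraph (Fin n),
        (D (∑ e : Sym2 (Fin n), if e ∈ G.edgeSet then a e else 0)).Accepts G ↔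
          ∃ c : Finset (Fin n), G.IsClique (c : Set (Fin n)) ∧ k ≤ c.card) →
      K * (Nat.log 2 (n + s) + 1) ^ 3 ≤ k →
      (n - k) ^ 2 ≤ K * AddMonoid.exponent A * (Nat.log 2 (Fintype.card A) + 1) *
        (Nat.log 2 (n + s) + 1) ^ 14 := by
  refine ⟨1000000000000, fun A _ _ n k s a D hD hcl hk => ?_⟩
  exact main_group n k s a D hD hcl (le_trans (Nat.mul_le_mul_right _ (by norm_num)) hk)

end Pool.Agent.Results.MP_0a1b52_lc.EdgeLabelSums
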