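import Pool.Agent.T9h35.Sharp.Main

set_option autoImplicit false

/-!
# Exhaustive search is optimal for disjunctions of small monotone circuits

Whether a graph with `n` vertices has a clique with `k` vertices can be decided by exhaustive search:
the answer is the disjunction of `binomial n k` trivial monotone circuits, one for each set of `k`
vertices. The theorem says that disjunctions of monotone circuits of polynomial size, and even of
exponential size `2 ^ (n ^ c)`, cannot do essentially better. Every such circuit which is sound,
that is, which accepts only graphs that have a clique with at least `k` vertices, finds at most
`(binomial n k) ^ ε` of the `binomial n k` possible cliques. So, if the disjunction of `q` of these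
circuits decides whether there is a clique with at least `k` vertices, then
`q ≥ (binomial n k) ^ (1 - ε)`; and one needs a fraction `δ` of this number of circuits for
finding a fraction `δ` of the possible cliques.

The bound on the size of the circuits is `(n / k) ^ e`, where `e ≥ 1` satisfies `K e ≤ k` and
`(K e) ^ K ≤ n / k`. For fixed `a`, `δ`, `ε` and all `k` with `K₀ ≤ k ≤ n ^ (1 - δ)` this allows all
circuits with at most `n ^ a` gates, and if `n ^ c ≤ k ≤ n ^ (1 - δ)`, where `c` is a sufficiently small
constant, all circuits with at most `2 ^ (n ^ c)` gates. Circuits with about `n ^ k` gates find all
cliques, so the condition `K e ≤ k` is natural. As one circuit would have to find everything, the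
theorem also contains the bound `n ^ (k / K)` for the monotone complexity of the clique problem for
small `k` (Cavalar, Kumar and Rossman, for `k ≤ n ^ (1 / 3 - o(1))`).

Method: the join of `k / κ` disjoint `κ`-partite graphs with parts of size `w` has a clique with `k`
vertices (after adding a few universal vertices) if and only if each of them has a clique with `κ`
vertices. Fix a sound monotone circuit, and in all blocks but one insert the complete `κ`-partite
graph. In the remaining block use the method of approximations, with random colourings with
`κ - 1` colours as negative tests, and families of vertex sets which are closed in the sense that a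
small set belongs to the family if, for almost all colourings for which it is rainbow, some member of
the family is rainbow. The number of minimal members of a closed family is bounded by a robust
sunflower lemma for random colourings. It follows that the circuit accepts at most a fraction
`size * (poly (κ, log size, log w) / w) ^ κ` of the cliques of the block. By monotonicity, the circuit
accepts at most the `(k / κ)`-th power of this fraction of the cliques of the join. Finally average
over all permutations of the vertices.
-/

namespace Pool.Agent.Results.MP_8a52c3_lc.ExhaustiveSearch

open Pool.Agent.T9h35

/-- For every `ε > 0` there is `K > 0` such that the following holds for all `n, k, e` with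
`e > 0`, `K e ≤ k` and `(K e) ^ K ≤ n / k`. Let `D u`, where `u` runs through a finite set `U`, be
monotone circuits on the edge variables of graphs with `n` vertices, each with at most
`(n / k) ^ e` gates, each of which accepts only graphs that have a clique with at
least `k` vertices. Then at most `|U| * (binomial n k) ^ ε` of the sets `S` of `k` vertices have the
property that one of the circuits accepts every graph in which `S` is a clique.

(Here `n / k` is rounded down.) -/
theorem result (ε : ℝ) (hε : 0 < ε) :
    ∃ K : ℕ, 0 < K ∧ ∀ (U : Type) [Fintype U] (n k e : ℕ) (D : U → MonoCircuit n),
      0 < e → K * e ≤ k → (K * e) ^ K ≤ n / k →
      (∀ u, (D u).size ≤ (n / k) ^ e) →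
      (∀ u (G : SimpleGraph (Fin n)), (D u).Accepts G →
        ∃ c : Finset (Fin n), G.IsClique (c : Set (Fin n)) ∧ k ≤ c.card) →
      ({S : Finset (Fin n) | S.card = k ∧ ∃ u, ∀ G : SimpleGraph (Fin n),
        G.IsClique (S : Set (Fin n)) → (D u).Accepts G}.ncard : ℝ) ≤
          (Fintype.card U : ℝ) * (n.choose k : ℝ) ^ ε :=
  Sharp.main_sharp ε hε

end Pool.Agent.Results.MP_8a52c3_lc.ExhaustiveSearch
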