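import Pool.Agent.T9h35.Free

set_option autoImplicit false

/-!
# The clique problem with free information about most of the graph and with witnesses

Let `H` be a set of possible edges of graphs with `n` vertices. Consider the following way to decide
whether a graph `G` has a clique with `k` vertices: everything about the edges of `G` outside `H` is
known for free and may be used in an arbitrary way, and a witness `u` from a set with `q` elements
may be guessed (`log q` witness bits); depending on both one gets a monotone circuit `D u R` of
polynomial size (`R` is the graph `G` without the edges in `H`), and `G` has the clique if and only
if for some witness the circuit accepts `G`.

Examples are nondeterministic circuits with AND and OR gates and with `log q` witness bits in which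
the variables in `H` never occur negated, and then all other variables, and arbitrary functions of
them, are free.

For every `m` this is possible with `q = 2 ^ m` and `|H| = m (m - 1) / 2`, also unconditionally: let
`H` be the set of all edges inside a set of `m` vertices, and guess the part of the clique inside this
set. The theorem says that up to logarithms nothing better is possible, for every `q`:
`|H|` is at most `(log q + 1) ^ 2 * polylog (n)` (if this is smaller than `k ^ 2` and
`(n - k) ^ 2`).

For `q = 1`: in a circuit of polynomial size for the `k`-clique problem with NOT gates only at the
inputs, all but `polylog n` of the variables must occur negated, even if arbitrary functions of the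
remaining variables can be used for free. If `H` is the set of all edges: nondeterministic circuits of
polynomial size whose verification is monotone need `min k (n - k) / polylog n` witness bits (and
`log (binomial n k)` suffice).

Method: `H` contains a large star or a large matching, and by fixing all other edges
suitably one gets the conjunction of many disjoint copies of a block function on the edges of the star
or matching. Its monotone complexity is superpolynomial (library `Pool.Agent.T9h16`). Fill
the blocks one after the other with positive inputs so that each time at least half of the accepting
witnesses are lost. This is possible at most `log q` times, and in a block in which it is not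
possible a few of the remaining circuits together compute the block function.
-/

namespace Pool.Agent.T9h35.Moved.FreeEdgesWitnesses

open Pool.Agent.T9h35

/-- There is a constant `K` such that the following holds for all `n, k, s`, every graph `H` on `n`
vertices and every finite set of witnesses with `q` elements. For every witness `u` and every
graph `R` let `D u R` be a monotone circuit with at most `s` gates on the edge variables of graphs
with `n` vertices. If, for every graph `G`, there is a witness `u` such that `D u (G \ H)` accepts
`G` if and only if `G` has a clique with at least `k` vertices, then
`min (sqrt |H|) (min k (n - k)) ≤ K (log q + 1) (log (n + s) + 1) ^ 7`, where `|H|` is the number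
of edges of `H`. -/
theorem result :
    ∃ K : ℕ, ∀ (κ : Type) [Fintype κ] (n k s : ℕ) (H : SimpleGraph (Fin n))
      (D : κ → SimpleGraph (Fin n) → MonoCircuit n),
      (∀ u R, (D u R).size ≤ s) →
      (∀ G : SimpleGraph (Fin n), (∃ u, (D u (G \ H)).Accepts G) ↔
        ∃ c : Finset (Fin n), G.IsClique (c : Set (Fin n)) ∧ k ≤ c.card) →
      min (Nat.sqrt H.edgeSet.ncard) (min k (n - k)) ≤
        K * (Nat.log 2 (Fintype.card κ) + 1) * (Nat.log 2 (n + s) + 1) ^ 7 :=
  ⟨30000000000000000, fun _ _ n k s H D hD hcl => main_free n k s H D hD hcl⟩

end Pool.Agent.T9h35.Moved.FreeEdgesWitnesses
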