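import Pool.Agent.T9h35.NearBF.Main

/-!
# Few NOT gates: exhaustive search is nearly optimal for clique

A circuit which decides whether a graph on `n` vertices has a clique with at least `k` vertices, built
from AND gates, OR gates and a few further gates (for example NOT gates), is large: if the values
read by the further gates change at most `m` times along chains of graphs (`m + 1 ≤ 2 ^ t` for `t` NOT
gates), then its size is at least `((n - k) ^ 2 / ((m + 1) exp (55 √(ln n ln j)))) ^ (j / 2)` for
every `j` between `3` and `k`.

The proof fills `n ^ (2 - o(1))` edge disjoint complete `j`-partite blocks without triangles of blocks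
(Ruzsa and Szemerédi, Behrend) one after the other by random complete `(j - 1)`-partite graphs; each
step either changes the values read by the further gates, or is done by a monotone circuit, to which
the approximation method with closed families (robust sunflowers) applies.
-/

set_option autoImplicit false

namespace Pool.Agent.Results.MP_8a52c3_lc.NegationTradeoff

open Pool.Agent.T9h34 Pool.Agent.T9h35.NearBF

theorem result (n k j : ℕ) (hj : 3 ≤ j) (hjk : j ≤ k) (C : Circuit (Pair n))
    (hC : ∀ G : SimpleGraph (Fin n), C.eval (edgeValues G) = true ↔ HasClique k G) :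
    ∃ (m : ℕ) (G : ℕ → SimpleGraph (Fin n)), (∀ i, G i ≤ G (i + 1)) ∧
      (∀ i, ¬ HasClique k (G i)) ∧
      (∀ i < m, C.reads (edgeValues (G i)) ≠ C.reads (edgeValues (G (i + 1)))) ∧
      m + 1 ≤ (C.gates.map fun g => g.args.length + 1).prod ∧
      ((n - k : ℕ) : ℝ) ^ (2 * j) ≤ ((C.size + C.numReads + 1 : ℕ) : ℝ) ^ 2 *
        (Real.exp (55 * √(Real.log n * Real.log j)) * (m + 1)) ^ j :=
  main n k j hj hjk C hC

end Pool.Agent.Results.MP_8a52c3_lc.NegationTradeoff
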